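import Mathlib

set_option autoImplicit false

/-!
A finite system of equations and one inequation forcing infinite order, and a countable group
in which it is solvable.
-/

namespace Pool.Agent.Run7.h54.GS

section Forced

variable {G : Type*} [Group G]

theorem conj_pow_two {a b : G} (h : b * a = a * a * b) : ∀ j : ℕ,
    b ^ j * a = a ^ (2 ^ j) * b ^ j := by
  intro j
  have h1 : ∀ n : ℕ, b * a ^ n = a ^ (2 * n) * b := by
    intro n
    induction n with
    | zero => simp
    | succ n ih =>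
      rw [pow_succ, ← mul_assoc, ih, mul_assoc, h, ← mul_assoc, ← pow_two, ← pow_add,
        show 2 * n + 2 = 2 * (n + 1) by ring]
  induction j with
  | zero => simp
  | succ j ih =>
    rw [pow_succ', mul_assoc, ih, ← mul_assoc, h1, mul_assoc, ← pow_succ', ← pow_succ']

theorem not_isOfFinOrder {a b c : G} (h1 : b * a = a * a * b) (h2 : c * a = b * c)
    (h3 : a ≠ 1) : ¬ IsOfFinOrder a := by
  intro hfin
  have hn : 0 < orderOf a := orderOf_pos_iff.mpr hfin
  have hb : orderOf b = orderOf a := by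
    have : b = c * a * c⁻¹ := by rw [h2, mul_inv_cancel_right]
    rw [this]
    exact MulEquiv.orderOf_eq (MulAut.conj c) a
  set n := orderOf a with hndef
  have hn1 : n ≠ 1 := by
    intro h
    exact h3 (orderOf_eq_one_iff.mp h)
  -- a ^ (2 ^ n) = a
  have h4 : a ^ (2 ^ n) = a := by
    have h5 := conj_pow_two h1 n
    rw [← hb, pow_orderOf_eq_one, one_mul, mul_one, hb] at h5
    exact h5.symm
  have h5 : n ∣ 2 ^ n - 1 := by
    have hpos : 1 ≤ 2 ^ n := Nat.one_le_two_pow
    rw [hndef]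
    apply orderOf_dvd_of_pow_eq_one
    rw [← hndef]
    have h6 : a ^ (2 ^ n - 1) * a = a := by
      rw [← pow_succ, Nat.sub_add_cancel hpos, h4]
    exact mul_eq_right.mp h6
  -- smallest prime factor
  have hp : n.minFac.Prime := Nat.minFac_prime hn1
  have : Fact n.minFac.Prime := ⟨hp⟩
  set p := n.minFac with hpdef
  have h6 : p ∣ 2 ^ n - 1 := (Nat.minFac_dvd n).trans h5
  have h7 : (2 : ZMod p) ^ n = 1 := by
    have h8 : ((2 ^ n - 1 : ℕ) : ZMod p) = 0 := (ZMod.natCast_eq_zero_iff _ _).mpr h6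
    rw [Nat.cast_sub Nat.one_le_two_pow] at h8
    push_cast at h8
    exact sub_eq_zero.mp h8
  have h8 : orderOf (2 : ZMod p) ∣ n := orderOf_dvd_of_pow_eq_one h7
  have h9 : (2 : ZMod p) ≠ 0 := by
    intro h
    rw [h, zero_pow hn.ne'] at h7
    exact zero_ne_one h7
  have h10 : orderOf (2 : ZMod p) ∣ p - 1 := orderOf_dvd_of_pow_eq_one (ZMod.pow_card_sub_one_eq_one h9)
  have h11 : orderOf (2 : ZMod p) = 1 := by
    by_contra hne
    have h12 : n.minFac ≤ orderOf (2 : ZMod p) := by
      have h13 : (orderOf (2 : ZMod p)).minFac ∣ n := (Nat.minFac_dvd _).trans h8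
      have h14 := Nat.minFac_le_of_dvd (Nat.minFac_prime hne).two_le h13
      exact h14.trans (Nat.minFac_le (Nat.pos_of_dvd_of_pos h8 hn))
    have h13 : orderOf (2 : ZMod p) ≤ p - 1 := Nat.le_of_dvd (by have := hp.two_le; omega) h10
    have := hp.two_le
    omega
  have h12 : (2 : ZMod p) = 1 := orderOf_eq_one_iff.mp h11
  have h13 : (1 : ZMod p) = 0 := by
    have : (2 : ZMod p) - 1 = 0 := sub_eq_zero.mpr h12
    rw [← this]; norm_num
  exact one_ne_zero h13

theorem forced {a b c : G} (h1 : b * a = a * a * b) (h2 : c * a = b * c)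
    (h3 : a ≠ 1) (F : Finset G) (ha : ∀ g ∈ F, g * a = a * g) (hb : ∀ g ∈ F, g * b = b * g) :
    (∀ g ∈ F, g * a = a * g) ∧ ∀ k : ℤ, k ≠ 0 → a ^ k ∉ Subgroup.closure (F : Set G) := by
  refine ⟨ha, ?_⟩
  intro k hk hmem
  have hle : Subgroup.closure (F : Set G) ≤ Subgroup.centralizer {b} := by
    rw [Subgroup.closure_le]
    intro g hg
    rw [SetLike.mem_coe, Subgroup.mem_centralizer_singleton_iff]
    exact hb g hg
  have h4 := Subgroup.mem_centralizer_singleton_iff.mp (hle hmem)
  have h5 : b * a ^ k * b⁻¹ = (a ^ k) * (a ^ k) := by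
    have h6 : b * a * b⁻¹ = a * a := by rw [h1, mul_inv_cancel_right]
    rw [← conj_zpow, h6, ← pow_two, ← zpow_natCast, ← zpow_mul, ← zpow_add]
    congr 1
    push_cast
    ring
  rw [← h4, mul_inv_cancel_right] at h5
  have h6 : a ^ k = 1 := (mul_eq_left.mp h5.symm)
  apply not_isOfFinOrder h1 h2 h3
  rw [isOfFinOrder_iff_zpow_eq_one]
  exact ⟨k, hk, h6⟩

end Forced

section Exists

/-- Translation by one. -/
def a0 : Equiv.Perm ℚ := Equiv.addRight 1

/-- Multiplication by two. -/
def b0 : Equiv.Perm ℚ where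
  toFun x := 2 * x
  invFun x := x / 2
  left_inv x := by ring
  right_inv x := by ring

theorem a0_pow (n : ℕ) (x : ℚ) : (a0 ^ n) x = x + n := by
  induction n with
  | zero => simp
  | succ n ih =>
    rw [pow_succ', Equiv.Perm.mul_apply, ih]
    change x + n + 1 = _
    push_cast
    ring

theorem b0_pow (n : ℕ) (x : ℚ) : (b0 ^ n) x = 2 ^ n * x := by
  induction n with
  | zero => simp
  | succ n ih =>
    rw [pow_succ', Equiv.Perm.mul_apply, ih]
    change 2 * (2 ^ n * x) = _
    ring

theorem a0_inf : ¬ IsOfFinOrder a0 := by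
  rw [isOfFinOrder_iff_pow_eq_one]
  rintro ⟨n, hn, h⟩
  have h1 := a0_pow n 0
  rw [h, Equiv.Perm.one_apply, zero_add] at h1
  have : (n : ℚ) ≠ 0 := by exact_mod_cast hn.ne'
  exact this h1.symm

theorem b0_inf : ¬ IsOfFinOrder b0 := by
  rw [isOfFinOrder_iff_pow_eq_one]
  rintro ⟨n, hn, h⟩
  have h1 := b0_pow n 1
  rw [h, Equiv.Perm.one_apply, mul_one] at h1
  have h2 : (1 : ℚ) < 2 ^ n := one_lt_pow₀ (by norm_num) hn.ne'
  exact absurd h1 h2.ne

theorem inj_of_inf {G : Type*} [Group G] {g : G} (h : ¬ IsOfFinOrder g) :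
    Function.Injective (zpowersHom G g) := by
  intro m n hmn
  have h1 := injective_zpow_iff_not_isOfFinOrder.mpr h
  exact Multiplicative.toAdd.injective (h1 hmn)

/-- The two cyclic groups are isomorphic. -/
noncomputable def phi : (zpowersHom (Equiv.Perm ℚ) a0).range ≃*
    (zpowersHom (Equiv.Perm ℚ) b0).range :=
  (MonoidHom.ofInjective (inj_of_inf a0_inf)).symm.trans
    (MonoidHom.ofInjective (inj_of_inf b0_inf))

theorem exists_hnn : ∃ (K : Type) (_ : Group K) (a b c : K),
    b * a = a * a * b ∧ c * a = b * c ∧ a ≠ 1 := by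
  refine ⟨HNNExtension (Equiv.Perm ℚ) _ _ phi, inferInstance, HNNExtension.of a0,
    HNNExtension.of b0, HNNExtension.t, ?_, ?_, ?_⟩
  · rw [← map_mul, ← map_mul, ← map_mul]
    congr 1
    ext x
    change 2 * (x + 1) = 2 * x + 1 + 1
    ring
  · have h1 := HNNExtension.t_mul_of (φ := phi)
      (MonoidHom.ofInjective (inj_of_inf a0_inf) (Multiplicative.ofAdd 1))
    unfold phi at h1
    rw [MulEquiv.trans_apply, MulEquiv.symm_apply_apply, MonoidHom.ofInjective_apply,
      MonoidHom.ofInjective_apply, zpowersHom_apply, zpowersHom_apply, toAdd_ofAdd, zpow_one,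
      zpow_one] at h1
    exact h1
  · intro h
    have h1 : a0 = 1 := HNNExtension.of_injective (φ := phi) (h.trans (map_one _).symm)
    apply a0_inf
    rw [h1]
    exact IsOfFinOrder.one

theorem exists_countable : ∃ (K : Type) (_ : Group K) (_ : Countable K) (a b c : K),
    b * a = a * a * b ∧ c * a = b * c ∧ a ≠ 1 := by
  obtain ⟨K, hK, a, b, c, h1, h2, h3⟩ := exists_hnn
  let f : FreeGroup (Fin 3) →* K := FreeGroup.lift ![a, b, c]
  have hcount : Countable (FreeGroup (Fin 3)) := by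
    unfold FreeGroup
    infer_instance
  have hcr : Countable f.range := f.rangeRestrict_surjective.countable
  have ha : a ∈ f.range := ⟨FreeGroup.of 0, by simp [f]⟩
  have hb : b ∈ f.range := ⟨FreeGroup.of 1, by simp [f]⟩
  have hc : c ∈ f.range := ⟨FreeGroup.of 2, by simp [f]⟩
  refine ⟨f.range, inferInstance, hcr, ⟨a, ha⟩, ⟨b, hb⟩, ⟨c, hc⟩, ?_, ?_, ?_⟩
  · apply Subtype.ext
    exact h1
  · apply Subtype.ext
    exact h2
  · intro h
    exact h3 (congrArg Subtype.val h)

end Exists

end Pool.Agent.Run7.h54.GS
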