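import Mathlib

set_option autoImplicit false

/-!
Group algebras over the rationals: if every finite set of elements of `G` is centralised by an
element `t` no nonzero power of which lies in the subgroup generated by the set, then the Jacobson
radical of `ℚ[G]` is zero.
-/

namespace Pool.Agent.Run7.h54.GS

open MonoidAlgebra

variable {G : Type*} [Group G]

/-- The adjoint. -/
noncomputable def adj (x : MonoidAlgebra ℚ G) : MonoidAlgebra ℚ G :=
  MonoidAlgebra.mapDomain (fun g => g⁻¹) x

theorem adj_single (g : G) (a : ℚ) :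
    adj (MonoidAlgebra.single g a) = MonoidAlgebra.single g⁻¹ a := by
  unfold adj
  exact MonoidAlgebra.mapDomain_single

theorem adj_zero : adj (0 : MonoidAlgebra ℚ G) = 0 := MonoidAlgebra.mapDomain_zero _

theorem adj_add (x y : MonoidAlgebra ℚ G) : adj (x + y) = adj x + adj y :=
  MonoidAlgebra.mapDomain_add _ _ _

theorem adj_adj (x : MonoidAlgebra ℚ G) : adj (adj x) = x := by
  induction x using MonoidAlgebra.induction_linear with
  | zero => rw [adj_zero, adj_zero]
  | add x y hx hy => rw [adj_add, adj_add, hx, hy]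
  | single m r => rw [adj_single, adj_single, inv_inv]

theorem adj_mul (x y : MonoidAlgebra ℚ G) : adj (x * y) = adj y * adj x := by
  induction x using MonoidAlgebra.induction_linear with
  | zero => rw [zero_mul, adj_zero, mul_zero]
  | add x z hx hz => rw [add_mul, adj_add, adj_add, hx, hz, mul_add]
  | single m r =>
    induction y using MonoidAlgebra.induction_linear with
    | zero => rw [mul_zero, adj_zero, zero_mul]
    | add x z hx hz => rw [mul_add, adj_add, adj_add, hx, hz, add_mul]
    | single n s =>
      rw [MonoidAlgebra.single_mul_single, adj_single, adj_single, adj_single,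
        MonoidAlgebra.single_mul_single, mul_inv_rev, mul_comm r s]

theorem coeff_adj_mul (x y : MonoidAlgebra ℚ G) :
    (adj x * y).coeff 1 = x.coeff.sum fun g a => a * y.coeff g := by
  induction x using MonoidAlgebra.induction_linear with
  | zero => rw [adj_zero, zero_mul]; simp
  | add x z hx hz =>
    rw [adj_add, add_mul, MonoidAlgebra.coeff_add, Finsupp.add_apply, hx, hz,
      MonoidAlgebra.coeff_add, Finsupp.sum_add_index']
    · intro g; rw [zero_mul]
    · intro g a b; rw [add_mul]
  | single m r =>
    rw [adj_single, MonoidAlgebra.coeff_single_mul_eq_mul_coeff m, MonoidAlgebra.coeff_single,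
      Finsupp.sum_single_index (by rw [zero_mul])]
    intro g _
    constructor
    · intro h
      exact (inv_mul_eq_one.mp h).symm
    · rintro rfl
      exact inv_mul_cancel g

theorem eq_zero_of_adj_mul_self {x : MonoidAlgebra ℚ G} (h : adj x * x = 0) : x = 0 := by
  have h1 := coeff_adj_mul x x
  rw [h, MonoidAlgebra.coeff_zero, Finsupp.zero_apply, Finsupp.sum] at h1
  have h2 := (Finset.sum_eq_zero_iff_of_nonneg
    (fun g _ => mul_self_nonneg (x.coeff g))).mp h1.symm
  apply MonoidAlgebra.coeff_injective
  ext g
  by_cases hg : g ∈ x.coeff.support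
  · exact mul_self_eq_zero.mp (h2 g hg)
  · exact Finsupp.notMem_support_iff.mp hg

theorem eq_zero_of_nilp {b : MonoidAlgebra ℚ G} (hb : adj b = b) :
    ∀ n : ℕ, b ^ (n + 1) = 0 → b = 0 := by
  have hpow : ∀ n : ℕ, adj (b ^ n) = b ^ n := by
    intro n
    induction n with
    | zero =>
      rw [pow_zero, MonoidAlgebra.one_def, adj_single, inv_one]
    | succ n ih => rw [pow_succ, adj_mul, ih, hb, ← pow_succ', ← pow_succ]
  intro n
  induction n with
  | zero => intro h; rwa [zero_add, pow_one] at h
  | succ n ih =>
    intro h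
    apply ih
    apply eq_zero_of_adj_mul_self
    rw [hpow, ← pow_add, show n + 1 + (n + 1) = n + 1 + 1 + n by omega, pow_add, h, zero_mul]

/-- Restriction of the support to a subgroup. -/
noncomputable def res (H : Subgroup G) (x : MonoidAlgebra ℚ G) : MonoidAlgebra ℚ G :=
  open Classical in MonoidAlgebra.ofCoeff (x.coeff.filter (fun g => g ∈ H))

theorem coeff_res (H : Subgroup G) (x : MonoidAlgebra ℚ G) (g : G) :
    (res H x).coeff g = open Classical in if g ∈ H then x.coeff g else 0 := by
  classical
  unfold res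
  rw [MonoidAlgebra.coeff_ofCoeff, Finsupp.filter_apply]

theorem res_add (H : Subgroup G) (x y : MonoidAlgebra ℚ G) :
    res H (x + y) = res H x + res H y := by
  apply MonoidAlgebra.coeff_injective
  ext g
  rw [MonoidAlgebra.coeff_add, Finsupp.add_apply, coeff_res, coeff_res, coeff_res,
    MonoidAlgebra.coeff_add, Finsupp.add_apply]
  split_ifs <;> simp

theorem res_zero (H : Subgroup G) : res H (0 : MonoidAlgebra ℚ G) = 0 := by
  apply MonoidAlgebra.coeff_injective
  ext g
  rw [coeff_res]
  split_ifs <;> simp

theorem res_single_mem (H : Subgroup G) (g : G) (a : ℚ) (hg : g ∈ H) :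
    res H (MonoidAlgebra.single g a) = MonoidAlgebra.single g a := by
  classical
  apply MonoidAlgebra.coeff_injective
  ext x
  rw [coeff_res]
  split_ifs with hx
  · rfl
  · rw [MonoidAlgebra.coeff_single, Finsupp.single_apply, if_neg]
    rintro rfl
    exact hx hg

theorem res_single_notMem (H : Subgroup G) (g : G) (a : ℚ) (hg : g ∉ H) :
    res H (MonoidAlgebra.single g a) = 0 := by
  classical
  apply MonoidAlgebra.coeff_injective
  ext x
  rw [coeff_res]
  split_ifs with hx
  · rw [MonoidAlgebra.coeff_single, Finsupp.single_apply, if_neg]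
    · rfl
    · rintro rfl
      exact hg hx
  · rfl

theorem res_mul_single (H : Subgroup G) (x : MonoidAlgebra ℚ G) (h : G) (hh : h ∈ H) (b : ℚ) :
    res H (x * MonoidAlgebra.single h b) = res H x * MonoidAlgebra.single h b := by
  induction x using MonoidAlgebra.induction_linear with
  | zero => rw [zero_mul, res_zero, zero_mul]
  | add x z hx hz => rw [add_mul, res_add, res_add, hx, hz, add_mul]
  | single m r =>
    rw [MonoidAlgebra.single_mul_single]
    by_cases hm : m ∈ H
    · rw [res_single_mem H m r hm, res_single_mem H _ _ (H.mul_mem hm hh),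
        MonoidAlgebra.single_mul_single]
    · rw [res_single_notMem H m r hm, res_single_notMem, zero_mul]
      intro h2
      apply hm
      have h3 := H.mul_mem h2 (H.inv_mem hh)
      rwa [mul_inv_cancel_right] at h3

/-- The elements with support in `S`. -/
theorem supp_induction {S : Set G} {motive : MonoidAlgebra ℚ G → Prop} (h0 : motive 0)
    (hadd : ∀ x y, motive x → motive y → motive (x + y))
    (hsingle : ∀ g ∈ S, ∀ a : ℚ, motive (MonoidAlgebra.single g a)) (x : MonoidAlgebra ℚ G)
    (hx : ∀ g ∈ x.coeff.support, g ∈ S) : motive x := by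
  classical
  rw [← MonoidAlgebra.sum_coeff_single x, Finsupp.sum]
  generalize hs : x.coeff.support = s at hx
  have key : ∀ s : Finset G, (∀ g ∈ s, g ∈ S) →
      motive (∑ a ∈ s, MonoidAlgebra.single a (x.coeff a)) := by
    intro s
    induction s using Finset.induction_on with
    | empty => intro _; rw [Finset.sum_empty]; exact h0
    | insert a s ha ih =>
      intro h
      rw [Finset.sum_insert ha]
      exact hadd _ _ (hsingle a (h a (Finset.mem_insert_self a s)) _)
        (ih fun g hg => h g (Finset.mem_insert_of_mem hg))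
  exact key s hx

theorem res_mul (H : Subgroup G) (x y : MonoidAlgebra ℚ G)
    (hy : ∀ g ∈ y.coeff.support, g ∈ H) : res H (x * y) = res H x * y := by
  refine supp_induction (S := (H : Set G)) (motive := fun y => res H (x * y) = res H x * y)
    ?_ ?_ ?_ y hy
  · rw [mul_zero, res_zero, mul_zero]
  · intro y z hy hz
    rw [mul_add, res_add, hy, hz, mul_add]
  · intro g hg a
    exact res_mul_single H x g hg a

theorem comm_of_supp (y : MonoidAlgebra ℚ G) (t : G)
    (hy : ∀ g ∈ y.coeff.support, g * t = t * g) :
    y * MonoidAlgebra.single t 1 = MonoidAlgebra.single t 1 * y := by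
  refine supp_induction (S := {g : G | g * t = t * g})
    (motive := fun y => y * MonoidAlgebra.single t 1 = MonoidAlgebra.single t 1 * y) ?_ ?_ ?_ y hy
  · rw [mul_zero, zero_mul]
  · intro y z hy hz
    rw [mul_add, add_mul, hy, hz]
  · intro g hg a
    have hg' : g * t = t * g := hg
    rw [MonoidAlgebra.single_mul_single, MonoidAlgebra.single_mul_single, hg', one_mul, mul_one]

/-- The main step: an element of the Jacobson radical is nilpotent. -/
theorem nilp_of_mem (x : MonoidAlgebra ℚ G) (hx : x ∈ Ring.jacobson (MonoidAlgebra ℚ G)) (t : G)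
    (ht : ∀ g ∈ x.coeff.support, g * t = t * g)
    (hp : ∀ k : ℤ, k ≠ 0 → t ^ k ∉ Subgroup.closure (x.coeff.support : Set G)) :
    ∃ n : ℕ, x ^ (n + 1) = 0 := by
  set H := Subgroup.closure (x.coeff.support : Set G) with hH
  have hxH : ∀ g ∈ x.coeff.support, g ∈ H := fun g hg => Subgroup.subset_closure hg
  have hmem : x ∈ Ideal.jacobson (⊥ : Ideal (MonoidAlgebra ℚ G)) := by
    rw [Ring.jacobson_eq_sInf_isMaximal] at hx
    unfold Ideal.jacobson
    convert hx using 2
    ext J
    simp
  obtain ⟨z, hz⟩ := Ideal.mem_jacobson_iff.mp hmem (MonoidAlgebra.single t (-1))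
  rw [Ideal.mem_bot] at hz
  have hT : ∀ j : ℤ, x * MonoidAlgebra.single (t ^ j) 1 = MonoidAlgebra.single (t ^ j) 1 * x := by
    intro j
    apply comm_of_supp
    intro g hg
    have hc : Commute g t := ht g hg
    exact (hc.zpow_right j)
  -- the components
  let P : ℤ → MonoidAlgebra ℚ G := fun k => res H (z * MonoidAlgebra.single (t ^ (-k)) 1)
  have hrec : ∀ k : ℤ, P k = P (k - 1) * x + res H (MonoidAlgebra.single (t ^ (-k)) 1) := by
    intro k
    have e1 : z = z * MonoidAlgebra.single t 1 * x + 1 := by
      have h2 : (MonoidAlgebra.single t (-1) : MonoidAlgebra ℚ G)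
          = - MonoidAlgebra.single t 1 := by
        apply MonoidAlgebra.coeff_injective
        rw [MonoidAlgebra.coeff_neg, MonoidAlgebra.coeff_single, MonoidAlgebra.coeff_single,
          Finsupp.single_neg]
      rw [h2] at hz
      have h3 : z = z * MonoidAlgebra.single t 1 * x + 1
          + (z * -MonoidAlgebra.single t 1 * x + z - 1) := by
        noncomm_ring
      rw [hz, add_zero] at h3
      exact h3
    have e2 : z * MonoidAlgebra.single (t ^ (-k)) 1
        = z * MonoidAlgebra.single (t ^ (-(k - 1))) 1 * x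
          + MonoidAlgebra.single (t ^ (-k)) 1 := by
      conv_lhs => rw [e1]
      rw [add_mul, one_mul, mul_assoc, hT (-k), ← mul_assoc, mul_assoc z,
        MonoidAlgebra.single_mul_single, mul_one]
      congr 4
      rw [← zpow_one_add]
      congr 1
      ring
    change res H (z * MonoidAlgebra.single (t ^ (-k)) 1) = _
    rw [e2, res_add, res_mul H _ x hxH]
  have h0 : P 0 = P (-1) * x + 1 := by
    have := hrec 0
    rw [neg_zero, zpow_zero, res_single_mem H 1 1 H.one_mem, zero_sub] at this
    exact this
  have hk : ∀ k : ℤ, k ≠ 0 → P k = P (k - 1) * x := by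
    intro k hk0
    rw [hrec k, res_single_notMem H _ _ (hp (-k) (by omega)), add_zero]
  -- finiteness
  have hfin : {k : ℤ | P k ≠ 0}.Finite := by
    have hsub : {k : ℤ | P k ≠ 0} ⊆ ⋃ g ∈ z.coeff.support, {k : ℤ | g * t ^ (-k) ∈ H} := by
      intro k hk0
      by_contra hcon
      apply hk0
      apply MonoidAlgebra.coeff_injective
      ext g
      change (res H (z * MonoidAlgebra.single (t ^ (-k)) 1)).coeff g = 0
      rw [coeff_res]
      split_ifs with hg
      · rw [MonoidAlgebra.coeff_mul_single_eq_coeff_mul (g * t ^ k), mul_one]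
        · by_contra hne
          apply hcon
          rw [Set.mem_iUnion₂]
          refine ⟨g * t ^ k, Finsupp.mem_support_iff.mpr hne, ?_⟩
          change g * t ^ k * t ^ (-k) ∈ H
          rw [mul_assoc, ← zpow_add, add_neg_cancel, zpow_zero, mul_one]
          exact hg
        · intro y _
          rw [zpow_neg, mul_inv_eq_iff_eq_mul]
      · rfl
    refine Set.Finite.subset ?_ hsub
    apply Set.Finite.biUnion (Finset.finite_toSet _)
    intro g _
    apply Set.Subsingleton.finite
    intro k hk1 l hl1
    by_contra hkl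
    have h1 : (g * t ^ (-k))⁻¹ * (g * t ^ (-l)) ∈ H := H.mul_mem (H.inv_mem hk1) hl1
    have h2 : (g * t ^ (-k))⁻¹ * (g * t ^ (-l)) = t ^ (k - l) := by
      rw [mul_inv_rev, mul_assoc, inv_mul_cancel_left, zpow_neg, inv_inv, ← zpow_add]
      rfl
    rw [h2] at h1
    exact hp (k - l) (sub_ne_zero.mpr hkl) h1
  obtain ⟨M, hM⟩ := hfin.bddBelow
  obtain ⟨N, hN⟩ := hfin.bddAbove
  have hlow : ∀ k : ℤ, k < M → P k = 0 := by
    intro k hk1
    by_contra hne
    have := hM (show k ∈ {k : ℤ | P k ≠ 0} from hne)
    omega
  have hhigh : ∀ k : ℤ, N < k → P k = 0 := by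
    intro k hk1
    by_contra hne
    have := hN (show k ∈ {k : ℤ | P k ≠ 0} from hne)
    omega
  have hneg : ∀ j : ℕ, P (-1) = P (-1 - j) * x ^ j := by
    intro j
    induction j with
    | zero => simp
    | succ j ih =>
      rw [ih, hk (-1 - (j : ℤ)) (by omega), mul_assoc, ← pow_succ']
      congr 2
      push_cast
      ring
  have hm1 : P (-1) = 0 := by
    rw [hneg (M.natAbs + 1), hlow _ (by omega), zero_mul]
  have hpos : ∀ j : ℕ, P j = x ^ j := by
    intro j
    induction j with
    | zero => rw [Nat.cast_zero, h0, hm1, zero_mul, zero_add, pow_zero]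
    | succ j ih =>
      rw [hk _ (by push_cast; omega)]
      push_cast
      rw [add_sub_cancel_right, ih, ← pow_succ]
  refine ⟨N.natAbs, ?_⟩
  rw [← hpos]
  apply hhigh
  omega

/-- The criterion. -/
theorem jacobson_eq_bot
    (hG : ∀ F : Finset G, ∃ t : G, (∀ g ∈ F, g * t = t * g) ∧
      ∀ k : ℤ, k ≠ 0 → t ^ k ∉ Subgroup.closure (F : Set G)) :
    Ring.jacobson (MonoidAlgebra ℚ G) = ⊥ := by
  rw [eq_bot_iff]
  intro x hx
  have hx2 : adj x * x ∈ Ring.jacobson (MonoidAlgebra ℚ G) := Ideal.mul_mem_left _ _ hx
  obtain ⟨t, ht1, ht2⟩ := hG (adj x * x).coeff.support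
  obtain ⟨n, hn⟩ := nilp_of_mem (adj x * x) hx2 t ht1 ht2
  have h3 : adj (adj x * x) = adj x * x := by rw [adj_mul, adj_adj]
  have h4 := eq_zero_of_nilp h3 n hn
  exact eq_zero_of_adj_mul_self h4

end Pool.Agent.Run7.h54.GS
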